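import Pool.Agent.L7h66.TS.Stm

/-!
# Project TS: random colourings of the trees
-/

set_option autoImplicit false

namespace Pool.Agent.L7h65.TS

open Finset
open Pool.Agent.L7h66.TS

/-- counting colourings -/
lemma count_col {r m : ℕ} (hm : 0 < m) (A B : Finset (Fin r)) (hAB : Disjoint A B)
    (p q : Fin m → Prop) [DecidablePred p] [DecidablePred q] :
    (((univ : Finset (Fin r → Fin m)).filter
      (fun c => (∀ j ∈ A, p (c j)) ∧ ∀ j ∈ B, q (c j))).card : ℝ) =
      (m : ℝ) ^ r * ((((univ : Finset (Fin m)).filter p).card : ℝ) / m) ^ A.card *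
        ((((univ : Finset (Fin m)).filter q).card : ℝ) / m) ^ B.card := by
  classical
  have hm' : (m : ℝ) ≠ 0 := by exact_mod_cast hm.ne'
  have e1 : (univ : Finset (Fin r → Fin m)).filter
      (fun c => (∀ j ∈ A, p (c j)) ∧ ∀ j ∈ B, q (c j)) =
      Fintype.piFinset (fun j => if j ∈ A then univ.filter p else if j ∈ B then univ.filter q
        else univ) := by
    ext c
    rw [Finset.mem_filter, Fintype.mem_piFinset]
    constructor
    · rintro ⟨-, h1, h2⟩ j
      split_ifs with hA hB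
      · exact Finset.mem_filter.2 ⟨Finset.mem_univ _, h1 j hA⟩
      · exact Finset.mem_filter.2 ⟨Finset.mem_univ _, h2 j hB⟩
      · exact Finset.mem_univ _
    · intro h
      refine ⟨Finset.mem_univ _, fun j hj => ?_, fun j hj => ?_⟩
      · have := h j
        rw [if_pos hj] at this
        exact (Finset.mem_filter.1 this).2
      · have := h j
        rw [if_neg (fun h' => Finset.disjoint_left.1 hAB h' hj), if_pos hj] at this
        exact (Finset.mem_filter.1 this).2
  rw [e1, Fintype.card_piFinset]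
  push_cast
  have e2 : (m : ℝ) ^ r = ∏ _j : Fin r, (m : ℝ) := by simp
  have e3 : ((((univ : Finset (Fin m)).filter p).card : ℝ) / m) ^ A.card =
      ∏ j : Fin r, (if j ∈ A then (((univ : Finset (Fin m)).filter p).card : ℝ) / m else 1) := by
    rw [Finset.prod_ite_mem, Finset.univ_inter, Finset.prod_const]
  have e4 : ((((univ : Finset (Fin m)).filter q).card : ℝ) / m) ^ B.card =
      ∏ j : Fin r, (if j ∈ B then (((univ : Finset (Fin m)).filter q).card : ℝ) / m else 1) := by
    rw [Finset.prod_ite_mem, Finset.univ_inter, Finset.prod_const]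
  rw [e2, e3, e4, ← Finset.prod_mul_distrib, ← Finset.prod_mul_distrib]
  refine Finset.prod_congr rfl fun j _ => ?_
  by_cases hA : j ∈ A
  · have hB : j ∉ B := Finset.disjoint_left.1 hAB hA
    rw [if_pos hA, if_pos hA, if_neg hB, mul_one]
    field_simp
  · by_cases hB : j ∈ B
    · rw [if_neg hA, if_neg hA, if_pos hB, if_pos hB, mul_one]
      field_simp
    · rw [if_neg hA, if_neg hA, if_neg hB, if_neg hB, mul_one, mul_one, Finset.card_univ,
        Fintype.card_fin]

lemma card_fin_filter {m : ℕ} (p : ℕ → Prop) [DecidablePred p] :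
    ((univ : Finset (Fin m)).filter (fun x : Fin m => p (x : ℕ))).card = ((Finset.range m).filter p).card := by
  rw [Finset.card_filter, Finset.card_filter]
  exact Fin.sum_univ_eq_sum_range (fun x => if p x then 1 else 0) m

lemma card_side1 {L : ℕ} :
    ((univ : Finset (Fin (4 * L))).filter (fun x : Fin (4 * L) => side L (x : ℕ) ∈ ({1} : Finset ℕ))).card = L := by
  rw [card_fin_filter (fun x => side L x ∈ ({1} : Finset ℕ))]
  have : (Finset.range (4 * L)).filter (fun x => side L x ∈ ({1} : Finset ℕ)) =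
      Finset.Icc 1 L := by
    ext x
    rw [Finset.mem_filter, Finset.mem_range, Finset.mem_Icc, Finset.mem_singleton]
    unfold side
    split_ifs <;> simp <;> omega
  rw [this, Nat.card_Icc]; omega

lemma card_side2 {L : ℕ} (hL : 1 ≤ L) :
    ((univ : Finset (Fin (4 * L))).filter (fun x : Fin (4 * L) => side L (x : ℕ) ∈ ({2} : Finset ℕ))).card = 1 := by
  rw [card_fin_filter (fun x => side L x ∈ ({2} : Finset ℕ))]
  have : (Finset.range (4 * L)).filter (fun x => side L x ∈ ({2} : Finset ℕ)) = {0} := by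
    ext x
    rw [Finset.mem_filter, Finset.mem_range, Finset.mem_singleton, Finset.mem_singleton]
    unfold side
    split_ifs <;> simp <;> omega
  rw [this, Finset.card_singleton]

lemma card_side12 {L : ℕ} (hL : 1 ≤ L) :
    ((univ : Finset (Fin (4 * L))).filter (fun x : Fin (4 * L) => side L (x : ℕ) ∈ ({1, 2} : Finset ℕ))).card =
      L + 1 := by
  rw [card_fin_filter (fun x => side L x ∈ ({1, 2} : Finset ℕ))]
  have : (Finset.range (4 * L)).filter (fun x => side L x ∈ ({1, 2} : Finset ℕ)) =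
      Finset.range (L + 1) := by
    ext x
    rw [Finset.mem_filter, Finset.mem_range, Finset.mem_range, Finset.mem_insert,
      Finset.mem_singleton]
    unfold side
    split_ifs <;> simp <;> omega
  rw [this, Finset.card_range]

/-- the elementary inequalities -/
lemma pow_le_lin {x : ℝ} (hx : 0 ≤ x) (t : ℕ) (h : (t : ℝ) * x ≤ 1 / 2) :
    (1 + x) ^ t ≤ 1 + 2 * t * x := by
  induction t with
  | zero => simp
  | succ t ih =>
    push_cast at h ⊢
    have h1 : (t : ℝ) * x ≤ 1 / 2 := by nlinarith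
    have h2 := ih h1
    have ht : (0 : ℝ) ≤ t := Nat.cast_nonneg _
    calc (1 + x) ^ (t + 1) = (1 + x) ^ t * (1 + x) := pow_succ _ _
      _ ≤ (1 + 2 * t * x) * (1 + x) := mul_le_mul_of_nonneg_right h2 (by linarith)
      _ = 1 + 2 * t * x + x + 2 * (t * x) * x := by ring
      _ ≤ 1 + 2 * (t + 1) * x := by nlinarith

lemma pow_le_two {x : ℝ} (hx : 0 ≤ x) (hx1 : x ≤ 1) (t : ℕ) :
    (1 + x) ^ t - 1 ≤ x * 2 ^ t := by
  suffices H : (1 + x) ^ t - 1 ≤ x * (2 ^ t - 1) by nlinarith
  induction t with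
  | zero => simp
  | succ t ih =>
    have h1 : (1 + x) ^ t ≤ 2 ^ t := pow_le_pow_left₀ (by linarith) (by linarith) t
    have h2 : x * (1 + x) ^ t ≤ x * 2 ^ t := mul_le_mul_of_nonneg_left h1 hx
    rw [pow_succ, pow_succ]
    linarith

/-- at least half of the elements have small sets -/
lemma half_small {n k : ℕ} (hk : 1 ≤ k) (t : Fin n → ℕ) (h : ∑ i, t i ≤ k * n) :
    n ≤ 2 * ((univ : Finset (Fin n)).filter (fun i => t i ≤ 2 * k)).card := by
  have h1 : (2 * k + 1) * ((univ : Finset (Fin n)).filter (fun i => ¬ t i ≤ 2 * k)).card ≤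
      k * n := by
    refine le_trans ?_ h
    rw [← Finset.sum_filter_add_sum_filter_not univ (fun i => t i ≤ 2 * k)]
    have h2 := Finset.card_nsmul_le_sum (univ.filter (fun i => ¬ t i ≤ 2 * k)) t (2 * k + 1)
      (fun i hi => by have := (Finset.mem_filter.1 hi).2; omega)
    rw [smul_eq_mul] at h2
    rw [mul_comm]
    exact h2.trans (Nat.le_add_left _ _)
  have h2 := Finset.card_filter_add_card_filter_not (s := (univ : Finset (Fin n)))
    (fun i => t i ≤ 2 * k)
  rw [Finset.card_univ, Fintype.card_fin] at h2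
  set a := ((univ : Finset (Fin n)).filter (fun i => t i ≤ 2 * k)).card
  set b := ((univ : Finset (Fin n)).filter (fun i => ¬ t i ≤ 2 * k)).card
  have h3 : 2 * b ≤ n := by
    by_contra hcon
    have h4 : n + 1 ≤ 2 * b := by omega
    have h5 : k * (n + 1) ≤ k * (2 * b) := Nat.mul_le_mul_left k h4
    nlinarith
  omega

lemma mem_core {n r L : ℕ} (R : Fin n → Finset (Fin r)) (c : Fin r → Fin (4 * L)) (A : Finset ℕ)
    (i : Fin n) : i ∈ core L R c A ↔ ∀ j ∈ R i, side L (c j) ∈ A := by
  unfold core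
  rw [Finset.mem_filter]
  exact ⟨fun h => h.2, fun h => ⟨Finset.mem_univ _, h⟩⟩

theorem s_COLOR : S_COLOR := by
  intro n k L r R R' hn hk hkL hR hR' θ hθ hnd
  classical
  have hL1 : 1 ≤ L := by omega
  have hLr : (0 : ℝ) < L := by exact_mod_cast hL1
  have hkr : (1 : ℝ) ≤ k := by exact_mod_cast hk
  have hkLr : 16 * (k : ℝ) ≤ L := by exact_mod_cast hkL
  have hnr : (1 : ℝ) ≤ n := by exact_mod_cast hn
  have hm0 : 0 < 4 * L := by omega
  set N : ℝ := ((4 * L : ℕ) : ℝ) ^ r with hN
  have hNpos : 0 < N := by rw [hN]; positivity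
  have hcardN : ((univ : Finset (Fin r → Fin (4 * L))).card : ℝ) = N := by
    rw [Finset.card_univ, Fintype.card_fun, Fintype.card_fin, Fintype.card_fin, hN]
    push_cast; ring
  set x : ℝ := 1 / L with hx
  have hx0 : 0 < x := by positivity
  have hkx : 16 * (k : ℝ) * x ≤ 1 := by
    rw [hx, mul_one_div, div_le_one hLr]; exact hkLr
  have hx1 : x ≤ 1 := by nlinarith
  set K : ℝ := 16 * k * x with hK
  have hK0 : 0 ≤ K := by positivity
  have hK1 : K ≤ 1 := hkx
  set f : Fin n → ℝ := fun i => (K + 1) * (1 / 4) ^ (R i).card -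
    (1 / 4) ^ (R i).card * (1 + x) ^ (R i).card with hf
  set u : Fin n → ℝ := fun j => (1 / (4 * L)) ^ (R' j).card with hu
  set T : (Fin r → Fin (4 * L)) → Fin n → Fin n → ℝ := fun c i j =>
    (if j ∈ core L R' c {2} then 1 else 0) * ((K + 1) * (if i ∈ core L R c {1} then 1 else 0) -
      (if i ∈ core L R c {1, 2} then 1 else 0)) with hT
  -- counting
  have hcnt : ∀ (S : Finset ℕ) (i j : Fin n), Disjoint (R i) (R' j) →
      ∑ c : Fin r → Fin (4 * L), (if j ∈ core L R' c {2} then (1 : ℝ) else 0) *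
        (if i ∈ core L R c S then 1 else 0) =
      N * ((((univ : Finset (Fin (4 * L))).filter
        (fun y : Fin (4 * L) => side L (y : ℕ) ∈ S)).card : ℝ) / (4 * L : ℕ)) ^ (R i).card *
          u j := by
    intro S i j hij
    have h1 := count_col hm0 (R i) (R' j) hij (fun y : Fin (4 * L) => side L (y : ℕ) ∈ S)
      (fun y : Fin (4 * L) => side L (y : ℕ) ∈ ({2} : Finset ℕ))
    rw [card_side2 hL1] at h1
    have h2 : ((1 : ℕ) : ℝ) / (4 * L : ℕ) = 1 / (4 * L) := by push_cast; ring
    rw [h2] at h1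
    rw [← h1, ← Finset.sum_boole]
    refine Finset.sum_congr rfl fun c _ => ?_
    have h3 : ((∀ j' ∈ R i, side L (c j') ∈ S) ∧ ∀ j' ∈ R' j, side L (c j') ∈ ({2} : Finset ℕ)) ↔
        (i ∈ core L R c S ∧ j ∈ core L R' c {2}) := by rw [mem_core, mem_core]
    rw [if_congr h3 rfl rfl]
    by_cases h4 : i ∈ core L R c S <;> by_cases h5 : j ∈ core L R' c {2} <;> simp [h4, h5]
  have hE : ∀ i j : Fin n, Disjoint (R i) (R' j) → ∑ c, T c i j = N * (u j * f i) := by
    intro i j hij
    have e1 : ∀ c, T c i j = (K + 1) * ((if j ∈ core L R' c {2} then (1 : ℝ) else 0) *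
        (if i ∈ core L R c {1} then 1 else 0)) - (if j ∈ core L R' c {2} then (1 : ℝ) else 0) *
        (if i ∈ core L R c {1, 2} then 1 else 0) := fun c => by rw [hT]; ring
    rw [Finset.sum_congr rfl fun c _ => e1 c, Finset.sum_sub_distrib, ← Finset.mul_sum,
      hcnt {1} i j hij, hcnt {1, 2} i j hij, card_side1, card_side12 hL1]
    have e2 : ((L : ℕ) : ℝ) / (4 * L : ℕ) = 1 / 4 := by
      push_cast; field_simp
    have e3 : ((L + 1 : ℕ) : ℝ) / (4 * L : ℕ) = 1 / 4 * (1 + x) := by
      rw [hx]; push_cast; field_simp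
    rw [e2, e3, mul_pow, hf]
    ring
  have hpow4 : ∀ t : ℕ, ((1 : ℝ) / 4) ^ t ≤ 1 := fun t => pow_le_one₀ (by norm_num) (by norm_num)
  have hf1 : ∀ i, f i ≤ 1 := by
    intro i
    rw [hf]
    have h1 : 1 ≤ (1 + x) ^ (R i).card := one_le_pow₀ (by linarith)
    have h2 : (0 : ℝ) ≤ (1 / 4) ^ (R i).card := by positivity
    have h3 := hpow4 (R i).card
    have h4 : (1 / 4 : ℝ) ^ (R i).card ≤ (1 / 4) ^ (R i).card * (1 + x) ^ (R i).card :=
      le_mul_of_one_le_right h2 h1
    show (K + 1) * (1 / 4) ^ (R i).card - (1 / 4) ^ (R i).card * (1 + x) ^ (R i).card ≤ 1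
    nlinarith
  have hu0 : ∀ j, 0 ≤ u j := fun j => by rw [hu]; positivity
  have hu1 : ∀ j, u j ≤ 1 := by
    intro j
    rw [hu]
    refine pow_le_one₀ (by positivity) ?_
    rw [div_le_one (by positivity)]
    nlinarith
  have hT1 : ∀ c i j, -1 ≤ T c i j := by
    intro c i j
    rw [hT]
    simp only
    split_ifs <;> nlinarith
  have hEall : ∀ p : Fin n × Fin n, N * (u p.2 * f p.1) -
      2 * N * (if ¬ Disjoint (R p.1) (R' p.2) then 1 else 0) ≤ ∑ c, T c p.1 p.2 := by
    intro p
    by_cases hd : Disjoint (R p.1) (R' p.2)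
    · rw [hE _ _ hd, if_neg (not_not.2 hd)]
      simp
    · rw [if_pos hd]
      have h1 : -N ≤ ∑ c, T c p.1 p.2 := by
        have h2 := Finset.card_nsmul_le_sum (univ : Finset (Fin r → Fin (4 * L)))
          (fun c => T c p.1 p.2) (-1) (fun c _ => hT1 c _ _)
        rw [nsmul_eq_mul, hcardN] at h2
        linarith
      have h3 : u p.2 * f p.1 ≤ 1 := by
        rcases le_total 0 (f p.1) with h | h
        · exact mul_le_one₀ (hu1 _) h (hf1 _)
        · have := mul_nonpos_of_nonneg_of_nonpos (hu0 p.2) h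
          linarith
      nlinarith
  -- the sum of the `u j`
  have hsumu : (n : ℝ) / 2 * (1 / (16 * (L : ℝ) ^ 2)) ^ k ≤ ∑ j, u j := by
    have h1 := half_small hk (fun j => (R' j).card) hR'
    set S := (univ : Finset (Fin n)).filter (fun j => (R' j).card ≤ 2 * k) with hS
    have h2 : (n : ℝ) / 2 ≤ S.card := by
      have : (n : ℝ) ≤ 2 * S.card := by exact_mod_cast h1
      linarith
    have h3 : ∀ j ∈ S, (1 / (16 * (L : ℝ) ^ 2)) ^ k ≤ u j := by
      intro j hj
      have h4 := (Finset.mem_filter.1 hj).2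
      have h5 : (1 / (16 * (L : ℝ) ^ 2)) ^ k = (1 / (4 * (L : ℝ))) ^ (2 * k) := by
        rw [pow_mul]; congr 1; field_simp; norm_num
      rw [h5, hu]
      refine pow_le_pow_of_le_one (by positivity) ?_ h4
      rw [div_le_one (by positivity)]
      nlinarith
    calc (n : ℝ) / 2 * (1 / (16 * (L : ℝ) ^ 2)) ^ k ≤ S.card * (1 / (16 * (L : ℝ) ^ 2)) ^ k :=
          mul_le_mul_of_nonneg_right h2 (by positivity)
      _ ≤ ∑ j ∈ S, u j := by
          have := Finset.card_nsmul_le_sum S u _ h3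
          rwa [nsmul_eq_mul] at this
      _ ≤ ∑ j, u j := Finset.sum_le_sum_of_subset_of_nonneg (Finset.filter_subset _ _)
          fun j _ _ => hu0 j
  -- the sum of the `f i`
  have hsumf : (n : ℝ) * (1 / 16) ^ k * x * (4 * k - 1 / 2) ≤ ∑ i, f i := by
    have h1 := half_small hk (fun j => (R j).card) hR
    set S := (univ : Finset (Fin n)).filter (fun j => (R j).card ≤ 2 * k) with hS
    have h2 : (n : ℝ) / 2 ≤ S.card := by
      have : (n : ℝ) ≤ 2 * S.card := by exact_mod_cast h1
      linarith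
    set φ : ℝ := (1 / 16) ^ k * (8 * k * x) with hφ
    set φ' : ℝ := (1 / 16) ^ k * x / 2 with hφ'
    have hφ0 : 0 ≤ φ := by positivity
    have hφ0' : 0 ≤ φ' := by positivity
    have h3 : ∀ i, (if i ∈ S then φ else 0) - φ' ≤ f i := by
      intro i
      have ef : f i = (1 / 4) ^ (R i).card * (K + 1 - (1 + x) ^ (R i).card) := by rw [hf]; ring
      rw [ef]
      have h4p : (0 : ℝ) ≤ (1 / 4) ^ (R i).card := by positivity
      rcases le_or_gt (R i).card (4 * k) with h4 | h4
      · have h5 : ((R i).card : ℝ) ≤ 4 * k := by exact_mod_cast h4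
        have h6 : ((R i).card : ℝ) * x ≤ 4 * k * x := mul_le_mul_of_nonneg_right h5 hx0.le
        have h7 := pow_le_lin hx0.le (R i).card (by nlinarith)
        have h8 : 8 * (k : ℝ) * x ≤ K + 1 - (1 + x) ^ (R i).card := by
          rw [hK]; nlinarith
        have h9 : (1 / 4 : ℝ) ^ (R i).card * (8 * k * x) ≤
            (1 / 4) ^ (R i).card * (K + 1 - (1 + x) ^ (R i).card) :=
          mul_le_mul_of_nonneg_left h8 h4p
        split_ifs with hiS
        · have h10 := (Finset.mem_filter.1 hiS).2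
          have h11 : (1 / 16 : ℝ) ^ k ≤ (1 / 4) ^ (R i).card := by
            have e : (1 / 16 : ℝ) ^ k = (1 / 4) ^ (2 * k) := by rw [pow_mul]; norm_num
            rw [e]
            exact pow_le_pow_of_le_one (by norm_num) (by norm_num) h10
          have h12 : φ ≤ (1 / 4 : ℝ) ^ (R i).card * (8 * k * x) :=
            mul_le_mul_of_nonneg_right h11 (by positivity)
          linarith
        · have : 0 ≤ (1 / 4 : ℝ) ^ (R i).card * (8 * k * x) := by positivity
          linarith
      · have hiS : i ∉ S := by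
          intro h
          have := (Finset.mem_filter.1 h).2
          omega
        rw [if_neg hiS]
        have h5 := pow_le_two hx0.le hx1 (R i).card
        have h6 : -(x * 2 ^ (R i).card) ≤ K + 1 - (1 + x) ^ (R i).card := by linarith
        have h7 : (1 / 4 : ℝ) ^ (R i).card * (-(x * 2 ^ (R i).card)) ≤
            (1 / 4) ^ (R i).card * (K + 1 - (1 + x) ^ (R i).card) :=
          mul_le_mul_of_nonneg_left h6 h4p
        have h8 : (1 / 4 : ℝ) ^ (R i).card * (-(x * 2 ^ (R i).card)) =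
            -(x * (1 / 2) ^ (R i).card) := by
          have : (1 / 2 : ℝ) ^ (R i).card = (1 / 4) ^ (R i).card * 2 ^ (R i).card := by
            rw [← mul_pow]; norm_num
          rw [this]; ring
        have h9 : (1 / 2 : ℝ) ^ (R i).card ≤ (1 / 2) ^ (4 * k + 1) :=
          pow_le_pow_of_le_one (by norm_num) (by norm_num) (by omega)
        have h10 : (1 / 2 : ℝ) ^ (4 * k + 1) = (1 / 16) ^ k / 2 := by
          rw [pow_succ, pow_mul]; norm_num; ring
        have h11 : x * (1 / 2) ^ (R i).card ≤ φ' := by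
          rw [h10] at h9
          calc x * (1 / 2) ^ (R i).card ≤ x * ((1 / 16) ^ k / 2) :=
                mul_le_mul_of_nonneg_left h9 hx0.le
            _ = φ' := by rw [hφ']; ring
        linarith
    have h4 : ∑ i, ((if i ∈ S then φ else 0) - φ') = S.card * φ - n * φ' := by
      rw [Finset.sum_sub_distrib, Finset.sum_ite_mem, Finset.univ_inter, Finset.sum_const,
        Finset.sum_const, Finset.card_univ, Fintype.card_fin, nsmul_eq_mul, nsmul_eq_mul]
    calc (n : ℝ) * (1 / 16) ^ k * x * (4 * k - 1 / 2) = n / 2 * φ - n * φ' := by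
          rw [hφ, hφ']; ring
      _ ≤ S.card * φ - n * φ' := by
          have := mul_le_mul_of_nonneg_right h2 hφ0
          linarith
      _ = _ := h4.symm
      _ ≤ ∑ i, f i := Finset.sum_le_sum fun i _ => h3 i
  have hθ0 : 0 < θ := by rw [hθ]; positivity
  have hprod : 3 / 2 * θ * (n : ℝ) ^ 2 ≤ (∑ j, u j) * ∑ i, f i := by
    have h1 : 0 ≤ (n : ℝ) * (1 / 16) ^ k * x * (4 * k - 1 / 2) := by
      have : (0 : ℝ) ≤ 4 * k - 1 / 2 := by linarith
      positivity
    have h2 : (n : ℝ) / 2 * (1 / (16 * (L : ℝ) ^ 2)) ^ k *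
        ((n : ℝ) * (1 / 16) ^ k * x * (4 * k - 1 / 2)) ≤ (∑ j, u j) * ∑ i, f i :=
      mul_le_mul hsumu hsumf h1 (Finset.sum_nonneg fun j _ => hu0 j)
    refine le_trans ?_ h2
    have h3 : (1 / (16 * (L : ℝ) ^ 2)) ^ k * (1 / 16) ^ k = (1 / (256 * (L : ℝ) ^ 2)) ^ k := by
      rw [← mul_pow]; congr 1; field_simp; norm_num
    have h4 : (n : ℝ) / 2 * (1 / (16 * (L : ℝ) ^ 2)) ^ k *
        ((n : ℝ) * (1 / 16) ^ k * x * (4 * k - 1 / 2)) =
        (n : ℝ) ^ 2 / 2 * x * (1 / (256 * (L : ℝ) ^ 2)) ^ k * (4 * k - 1 / 2) := by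
      rw [← h3]; ring
    have h5 : 3 / 2 * θ * (n : ℝ) ^ 2 =
        (n : ℝ) ^ 2 / 2 * x * (1 / (256 * (L : ℝ) ^ 2)) ^ k * (3 * k) := by
      rw [hθ, hx]; ring
    rw [h4, h5]
    exact mul_le_mul_of_nonneg_left (by linarith) (by positivity)
  -- the total
  have htot : N * (θ * (n : ℝ) ^ 2) ≤ ∑ c, ∑ p : Fin n × Fin n, T c p.1 p.2 := by
    rw [Finset.sum_comm]
    refine le_trans ?_ (Finset.sum_le_sum fun p _ => hEall p)
    rw [Finset.sum_sub_distrib, ← Finset.mul_sum, ← Finset.mul_sum, Finset.sum_boole]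
    have h1 : ∑ p : Fin n × Fin n, u p.2 * f p.1 = (∑ j, u j) * ∑ i, f i := by
      rw [Fintype.sum_prod_type, Finset.sum_mul_sum, Finset.sum_comm]
    rw [h1]
    have h2 := mul_le_mul_of_nonneg_left hprod hNpos.le
    have h3 := mul_le_mul_of_nonneg_left hnd hNpos.le
    nlinarith
  -- the value of a colouring
  set Y : (Fin r → Fin (4 * L)) → ℝ := fun c => ((core L R' c {2}).card : ℝ) *
    ((K + 1) * ((core L R c {1}).card : ℝ) - ((core L R c {1, 2}).card : ℝ)) with hY
  have hYT : ∀ c, ∑ p : Fin n × Fin n, T c p.1 p.2 = Y c := by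
    intro c
    have hi : ∀ S : Finset (Fin n), ∑ i : Fin n, (if i ∈ S then (1 : ℝ) else 0) = S.card := by
      intro S
      rw [Finset.sum_boole, Finset.filter_mem_eq_inter, Finset.univ_inter]
    show ∑ p : Fin n × Fin n, (if p.2 ∈ core L R' c {2} then (1 : ℝ) else 0) *
        ((K + 1) * (if p.1 ∈ core L R c {1} then 1 else 0) -
          (if p.1 ∈ core L R c {1, 2} then 1 else 0)) = ((core L R' c {2}).card : ℝ) *
      ((K + 1) * ((core L R c {1}).card : ℝ) - ((core L R c {1, 2}).card : ℝ))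
    rw [← hi (core L R' c {2}), ← hi (core L R c {1}), ← hi (core L R c {1, 2}),
      Finset.mul_sum, ← Finset.sum_sub_distrib, Finset.sum_mul_sum, Fintype.sum_prod_type,
      Finset.sum_comm]
  have hsub : ∀ c, core L R c {1} ⊆ core L R c {1, 2} := by
    intro c i hi
    rw [mem_core] at hi ⊢
    intro j hj
    have := hi j hj
    rw [Finset.mem_singleton] at this
    rw [this]
    exact Finset.mem_insert_self _ _
  have hle : ∀ c, ((core L R c {1}).card : ℝ) ≤ ((core L R c {1, 2}).card : ℝ) := fun c => by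
    exact_mod_cast Finset.card_le_card (hsub c)
  have hcn : ∀ S : Finset (Fin n), (S.card : ℝ) ≤ n := by
    intro S
    have := Finset.card_le_univ S
    rw [Fintype.card_fin] at this
    exact_mod_cast this
  have hD : ∀ c, (K + 1) * ((core L R c {1}).card : ℝ) - ((core L R c {1, 2}).card : ℝ) ≤
      ((core L R c {1}).card : ℝ) := by
    intro c
    have h1 := hle c
    have h2 : (0 : ℝ) ≤ ((core L R c {1}).card : ℝ) := Nat.cast_nonneg _
    nlinarith
  have hYn : ∀ c, Y c ≤ (n : ℝ) ^ 2 := by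
    intro c
    have h1 := hD c
    have h2 := hcn (core L R c {1})
    have h3 := hcn (core L R' c {2})
    have h4 : (0 : ℝ) ≤ ((core L R' c {2}).card : ℝ) := Nat.cast_nonneg _
    rw [hY]
    calc ((core L R' c {2}).card : ℝ) *
        ((K + 1) * ((core L R c {1}).card : ℝ) - ((core L R c {1, 2}).card : ℝ))
        ≤ ((core L R' c {2}).card : ℝ) * n := mul_le_mul_of_nonneg_left (h1.trans h2) h4
      _ ≤ n * n := mul_le_mul_of_nonneg_right h3 (by positivity)
      _ = (n : ℝ) ^ 2 := by ring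
  set B := (univ : Finset (Fin r → Fin (4 * L))).filter (fun c => θ * (n : ℝ) ^ 2 / 2 ≤ Y c) with hB
  have hBcard : θ / 2 * N ≤ B.card := by
    have h1 : ∑ c, Y c ≤ B.card * (n : ℝ) ^ 2 + N * (θ * (n : ℝ) ^ 2 / 2) := by
      rw [← Finset.sum_filter_add_sum_filter_not univ (fun c => θ * (n : ℝ) ^ 2 / 2 ≤ Y c)]
      refine add_le_add ?_ ?_
      · have := Finset.sum_le_card_nsmul B Y ((n : ℝ) ^ 2) (fun c _ => hYn c)
        rwa [nsmul_eq_mul] at this
      · have h2 := Finset.sum_le_card_nsmul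
          ((univ : Finset (Fin r → Fin (4 * L))).filter (fun c => ¬ θ * (n : ℝ) ^ 2 / 2 ≤ Y c)) Y
          (θ * (n : ℝ) ^ 2 / 2) (fun c hc => (not_le.1 (Finset.mem_filter.1 hc).2).le)
        rw [nsmul_eq_mul] at h2
        refine h2.trans (mul_le_mul_of_nonneg_right ?_ (by positivity))
        rw [← hcardN]
        exact_mod_cast Finset.card_le_card (Finset.filter_subset _ _)
    have h2 : N * (θ * (n : ℝ) ^ 2) ≤ ∑ c, Y c := by
      rw [← Finset.sum_congr rfl fun c _ => hYT c]; exact htot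
    have h3 : (0 : ℝ) < (n : ℝ) ^ 2 := by positivity
    have h4 : θ / 2 * N * (n : ℝ) ^ 2 ≤ B.card * (n : ℝ) ^ 2 := by nlinarith
    exact le_of_mul_le_mul_right h4 h3
  refine hBcard.trans ?_
  have hBsub : B ⊆ (univ : Finset (Fin r → Fin (4 * L))).filter (fun c =>
        θ * n / 2 ≤ ((core L R' c {2}).card : ℝ) ∧ θ * n / 2 ≤ ((core L R c {1}).card : ℝ) ∧
        ((core L R c {1, 2} \ core L R c {1}).card : ℝ) ≤
          16 * k / L * ((core L R c {1}).card : ℝ)) := by
    intro c hc
    have hYc := (Finset.mem_filter.1 hc).2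
    rw [Finset.mem_filter]
    refine ⟨Finset.mem_univ _, ?_⟩
    have h1 := hD c
    have h2 := hcn (core L R c {1})
    have h3 := hcn (core L R' c {2})
    have h4 : (0 : ℝ) ≤ ((core L R' c {2}).card : ℝ) := Nat.cast_nonneg _
    have h5 : (0 : ℝ) ≤ ((core L R c {1}).card : ℝ) := Nat.cast_nonneg _
    set D : ℝ := (K + 1) * ((core L R c {1}).card : ℝ) - ((core L R c {1, 2}).card : ℝ) with hDd
    have hYD : θ * (n : ℝ) ^ 2 / 2 ≤ ((core L R' c {2}).card : ℝ) * D := hYc
    have hpos : 0 < θ * (n : ℝ) ^ 2 / 2 := by positivity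
    have hD0 : 0 < D := by
      by_contra h
      have := mul_nonpos_of_nonneg_of_nonpos h4 (not_lt.1 h)
      linarith
    have hn0 : (0 : ℝ) < n := by linarith
    refine ⟨?_, ?_, ?_⟩
    · have h6 : θ * (n : ℝ) / 2 * n ≤ ((core L R' c {2}).card : ℝ) * n := by
        calc θ * (n : ℝ) / 2 * n = θ * (n : ℝ) ^ 2 / 2 := by ring
          _ ≤ ((core L R' c {2}).card : ℝ) * D := hYD
          _ ≤ _ := mul_le_mul_of_nonneg_left (h1.trans h2) h4
      exact le_of_mul_le_mul_right h6 hn0
    · have h6 : θ * (n : ℝ) / 2 * n ≤ ((core L R c {1}).card : ℝ) * n := by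
        calc θ * (n : ℝ) / 2 * n = θ * (n : ℝ) ^ 2 / 2 := by ring
          _ ≤ ((core L R' c {2}).card : ℝ) * D := hYD
          _ ≤ n * D := mul_le_mul_of_nonneg_right h3 hD0.le
          _ ≤ n * ((core L R c {1}).card : ℝ) := mul_le_mul_of_nonneg_left h1 hn0.le
          _ = _ := by ring
      exact le_of_mul_le_mul_right h6 hn0
    · rw [Finset.card_sdiff_of_subset (hsub c), Nat.cast_sub (Finset.card_le_card (hsub c))]
      have e : 16 * (k : ℝ) / L = K := by rw [hK, hx]; ring
      rw [e]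
      linarith
  exact_mod_cast Finset.card_le_card hBsub

end Pool.Agent.L7h65.TS
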