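import Pool.Agent.L7h66.TS.Stm

/-!
# Project TS: cutting a computation into decision trees
-/

set_option autoImplicit false

namespace Pool.Agent.L7h65.TS

open Finset
open Pool.Agent.L7h66.TS

section

variable {ι D Q : Type} (P : Prog ι D Q)

/-- the state after `m` steps from the state `q` at the time `t` -/
def run (z : ι → D) (t : ℕ) (q : Q) : ℕ → Q
  | 0 => q
  | m + 1 => P.next (t + m) (run z t q m) (z (P.pos (t + m) (run z t q m)))

lemma st_add (z : ι → D) (t m : ℕ) : P.st z (t + m) = run P z t (P.st z t) m := by
  induction m with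
  | zero => rfl
  | succ m ih =>
    show P.next (t + m) (P.st z (t + m)) (z (P.pos (t + m) (P.st z (t + m)))) = _
    rw [ih]; rfl

/-- the items read -/
def rdd [DecidableEq ι] (z : ι → D) (t : ℕ) (q : Q) (h : ℕ) : Finset ι :=
  (Finset.range h).image (fun m => P.pos (t + m) (run P z t q m))

lemma run_congr [DecidableEq ι] {z z' : ι → D} {t : ℕ} {q : Q} {h : ℕ}
    (hz : ∀ i ∈ rdd P z t q h, z i = z' i) : ∀ m ≤ h, run P z' t q m = run P z t q m := by
  intro m
  induction m with
  | zero => intro _; rfl
  | succ m ih =>
    intro hm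
    have h1 := ih (by omega)
    show P.next (t + m) (run P z' t q m) (z' (P.pos (t + m) (run P z' t q m))) =
      P.next (t + m) (run P z t q m) (z (P.pos (t + m) (run P z t q m)))
    rw [h1]
    congr 1
    refine (hz _ ?_).symm
    exact Finset.mem_image.2 ⟨m, Finset.mem_range.2 (by omega), rfl⟩

lemma rdd_congr [DecidableEq ι] {z z' : ι → D} {t : ℕ} {q : Q} {h : ℕ}
    (hz : ∀ i ∈ rdd P z t q h, z i = z' i) : rdd P z' t q h = rdd P z t q h := by
  have h1 := run_congr P hz
  unfold rdd
  refine Finset.image_congr fun m hm => ?_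
  have hm' : m < h := Finset.mem_range.1 (Finset.mem_coe.1 hm)
  show P.pos (t + m) (run P z' t q m) = P.pos (t + m) (run P z t q m)
  rw [h1 m hm'.le]

/-- the state at the beginning of a block -/
def ent {r : ℕ} (v : Fin r → Q) (j : Fin r) : Q :=
  if h0 : (j : ℕ) = 0 then P.init else v ⟨(j : ℕ) - 1, by have := j.2; omega⟩

end

theorem s_FOREST : S_FOREST := by
  intro ι D Q _ P r h hr
  refine ⟨fun v =>
    { rd := fun j z => rdd P z (j * h) (ent P v j) h
      ac := fun j z => run P z (j * h) (ent P v j) h = v j ∧ ((j : ℕ) + 1 = r → P.out (v j))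
      loc := ?_ }, ?_, ?_⟩
  · intro j z z' hz
    refine ⟨rdd_congr P hz, ?_⟩
    rw [run_congr P hz h le_rfl]
  · intro v j z
    exact Finset.card_image_le.trans (by rw [Finset.card_range])
  · intro z
    constructor
    · intro hout
      refine ⟨fun j => P.st z ((j + 1) * h), fun j => ⟨?_, ?_⟩⟩
      · have h1 : ent P (fun j : Fin r => P.st z ((j + 1) * h)) j = P.st z (j * h) := by
          unfold ent
          split_ifs with h0
          · rw [h0, zero_mul]; rfl
          · show P.st z (((j : ℕ) - 1 + 1) * h) = _
            rw [Nat.sub_add_cancel (Nat.one_le_iff_ne_zero.2 h0)]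
        show run P z (j * h) (ent P (fun j : Fin r => P.st z ((j + 1) * h)) j) h =
          P.st z ((j + 1) * h)
        rw [h1, ← st_add, add_mul, one_mul]
      · intro hj
        show P.out (P.st z ((j + 1) * h))
        rw [hj]; exact hout
    · rintro ⟨v, hv⟩
      have key : ∀ m : ℕ, ∀ hm : m < r, v ⟨m, hm⟩ = P.st z ((m + 1) * h) := by
        intro m
        induction m with
        | zero =>
          intro hm
          have h1 := (hv ⟨0, hm⟩).1
          have h2 : ent P v ⟨0, hm⟩ = P.init := by unfold ent; rw [dif_pos rfl]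
          rw [h2] at h1
          rw [← h1, zero_add, one_mul]
          have h3 := st_add P z 0 h
          rw [zero_add] at h3
          rw [h3]
          show run P z (0 * h) P.init h = _
          rw [zero_mul]; rfl
        | succ m ih =>
          intro hm
          have h1 := (hv ⟨m + 1, hm⟩).1
          have h2 : ent P v ⟨m + 1, hm⟩ = v ⟨m, by omega⟩ := by
            unfold ent
            rw [dif_neg (Nat.succ_ne_zero m)]
            rfl
          rw [h2, ih (by omega)] at h1
          rw [← h1, add_mul (m + 1) 1 h, one_mul, st_add P z ((m + 1) * h) h]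
      have h1 := (hv ⟨r - 1, by omega⟩).2 (by show r - 1 + 1 = r; omega)
      rw [key] at h1
      have h2 : (r - 1 + 1) * h = r * h := by rw [Nat.sub_add_cancel hr]
      rwa [h2] at h1

end Pool.Agent.L7h65.TS
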