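import Pool.Agent.L7h65.TS.For

/-!
# Project TS: cutting a computation into decision trees, with uniqueness
-/

set_option autoImplicit false

namespace Pool.Agent.L7h65.TS

open Finset
open Pool.Agent.L7h66.TS

/-- an accepting choice of the states is the sequence of the states of the computation -/
lemma states_eq {ι D Q : Type} (P : Prog ι D Q) {r h : ℕ} {v : Fin r → Q} {z : ι → D}
    (hv : ∀ j : Fin r, run P z (j * h) (ent P v j) h = v j) :
    ∀ j : Fin r, v j = P.st z ((j + 1) * h) := by
  have key : ∀ m : ℕ, ∀ hm : m < r, v ⟨m, hm⟩ = P.st z ((m + 1) * h) := by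
    intro m
    induction m with
    | zero =>
      intro hm
      have h1 := hv ⟨0, hm⟩
      have h2 : ent P v ⟨0, hm⟩ = P.init := by unfold ent; rw [dif_pos rfl]
      rw [h2] at h1
      rw [← h1, zero_add, one_mul]
      have h3 := st_add P z 0 h
      rw [zero_add] at h3
      rw [h3]
      show run P z (0 * h) P.init h = _
      rw [zero_mul]; rfl
    | succ m ih =>
      intro hm
      have h1 := hv ⟨m + 1, hm⟩
      have h2 : ent P v ⟨m + 1, hm⟩ = v ⟨m, by omega⟩ := by
        unfold ent
        rw [dif_neg (Nat.succ_ne_zero m)]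
        rfl
      rw [h2, ih (by omega)] at h1
      rw [← h1, add_mul (m + 1) 1 h, one_mul, st_add P z ((m + 1) * h) h]
  intro j
  exact key j j.2

theorem s_FOREST_unique : ∀ (ι D Q : Type) [DecidableEq ι] (P : Prog ι D Q) (r h : ℕ), 1 ≤ r →
    ∃ Φ : (Fin r → Q) → Forest ι D r, (∀ v j z, ((Φ v).rd j z).card ≤ h) ∧
      (∀ z, P.out (P.st z (r * h)) ↔ ∃ v, ∀ j, (Φ v).ac j z) ∧
      ∀ z v v', (∀ j, (Φ v).ac j z) → (∀ j, (Φ v').ac j z) → v = v' := by
  intro ι D Q _ P r h hr
  refine ⟨fun v =>
    { rd := fun j z => rdd P z (j * h) (ent P v j) h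
      ac := fun j z => run P z (j * h) (ent P v j) h = v j ∧ ((j : ℕ) + 1 = r → P.out (v j))
      loc := ?_ }, ?_, ?_, ?_⟩
  · intro j z z' hz
    refine ⟨rdd_congr P hz, ?_⟩
    rw [run_congr P hz h le_rfl]
  · intro v j z
    exact Finset.card_image_le.trans (by rw [Finset.card_range])
  · intro z
    constructor
    · intro hout
      refine ⟨fun j => P.st z ((j + 1) * h), fun j => ⟨?_, ?_⟩⟩
      · have h1 : ent P (fun j : Fin r => P.st z ((j + 1) * h)) j = P.st z (j * h) := by
          unfold ent
          split_ifs with h0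
          · rw [h0, zero_mul]; rfl
          · show P.st z (((j : ℕ) - 1 + 1) * h) = _
            rw [Nat.sub_add_cancel (Nat.one_le_iff_ne_zero.2 h0)]
        show run P z (j * h) (ent P (fun j : Fin r => P.st z ((j + 1) * h)) j) h =
          P.st z ((j + 1) * h)
        rw [h1, ← st_add, add_mul, one_mul]
      · intro hj
        show P.out (P.st z ((j + 1) * h))
        rw [hj]; exact hout
    · rintro ⟨v, hv⟩
      have key := states_eq P (fun j => (hv j).1)
      have h1 := (hv ⟨r - 1, by omega⟩).2 (by show r - 1 + 1 = r; omega)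
      rw [key] at h1
      have h2 : (r - 1 + 1) * h = r * h := by rw [Nat.sub_add_cancel hr]
      rwa [h2] at h1
  · intro z v v' hv hv'
    funext j
    rw [states_eq P (fun j => (hv j).1) j, states_eq P (fun j => (hv' j).1) j]

end Pool.Agent.L7h65.TS
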