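import Pool.Agent.L7h66.TS.Stm

/-!
# Project TS: the window lemma
-/

set_option autoImplicit false

namespace Pool.Agent.L7h65.TS

open Finset
open Pool.Agent.L7h66.TS

/-- the number of smaller elements -/
def rkk {n : ℕ} (X : Finset (Fin n)) (i : Fin n) : ℕ := (X.filter (· < i)).card

lemma rkk_lt {n : ℕ} {X : Finset (Fin n)} {i j : Fin n} (hi : i ∈ X) (h : i < j) :
    rkk X i < rkk X j := by
  refine Finset.card_lt_card ?_
  rw [Finset.ssubset_iff_of_subset]
  · exact ⟨i, Finset.mem_filter.2 ⟨hi, h⟩, fun h' => lt_irrefl _ (Finset.mem_filter.1 h').2⟩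
  · intro k hk
    rw [Finset.mem_filter] at hk ⊢
    exact ⟨hk.1, hk.2.trans h⟩

lemma rkk_mono {n : ℕ} {X : Finset (Fin n)} {i j : Fin n} (h : i ≤ j) : rkk X i ≤ rkk X j := by
  refine Finset.card_le_card fun k hk => ?_
  rw [Finset.mem_filter] at hk ⊢
  exact ⟨hk.1, lt_of_lt_of_le hk.2 h⟩

lemma exists_rkk {n : ℕ} {X : Finset (Fin n)} {m : ℕ} (hm : m < X.card) : ∃ i ∈ X, rkk X i = m := by
  have hinj : Set.InjOn (rkk X) X := by
    intro i hi j hj hij
    rcases lt_trichotomy i j with h | h | h
    · exact absurd hij (rkk_lt hi h).ne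
    · exact h
    · exact absurd hij (rkk_lt hj h).ne'
  have hsub : X.image (rkk X) ⊆ Finset.range X.card := by
    intro k hk
    obtain ⟨i, hi, rfl⟩ := Finset.mem_image.1 hk
    rw [Finset.mem_range]
    refine Finset.card_lt_card ?_
    rw [Finset.ssubset_iff_of_subset (Finset.filter_subset _ _)]
    exact ⟨i, hi, fun h' => lt_irrefl _ (Finset.mem_filter.1 h').2⟩
  have heq : X.image (rkk X) = Finset.range X.card :=
    Finset.eq_of_subset_of_card_le hsub (by
      rw [Finset.card_range, Finset.card_image_of_injOn hinj])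
  have : m ∈ X.image (rkk X) := by rw [heq, Finset.mem_range]; exact hm
  obtain ⟨i, hi, h⟩ := Finset.mem_image.1 this
  exact ⟨i, hi, h⟩

theorem s_WINDOW : S_WINDOW := by
  intro n a e g X U hXU ha hg hX hU
  classical
  set W : ℕ → Finset (Fin n) := fun l =>
    (U \ X).filter (fun u => l * a + 1 ≤ rkk X u ∧ rkk X u ≤ l * a + a - 1) with hW
  obtain ⟨l, hl, hle⟩ : ∃ l ∈ Finset.range g, (W l).card ≤ e := by
    by_contra hcon
    push Not at hcon
    have hdisj : ∀ l ∈ Finset.range g, ∀ l' ∈ Finset.range g, l ≠ l' → Disjoint (W l) (W l') := by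
      intro l _ l' _ hne
      rw [Finset.disjoint_left]
      intro u hu hu'
      have h1 := (Finset.mem_filter.1 hu).2
      have h2 := (Finset.mem_filter.1 hu').2
      rcases lt_or_gt_of_ne hne with h | h
      · have : (l + 1) * a ≤ l' * a := Nat.mul_le_mul_right a h
        rw [add_mul, one_mul] at this
        omega
      · have : (l' + 1) * a ≤ l * a := Nat.mul_le_mul_right a h
        rw [add_mul, one_mul] at this
        omega
    have h1 : ((Finset.range g).biUnion W).card = ∑ l ∈ Finset.range g, (W l).card :=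
      Finset.card_biUnion hdisj
    have h2 : ((Finset.range g).biUnion W).card ≤ (U \ X).card :=
      Finset.card_le_card (Finset.biUnion_subset.2 fun l _ => Finset.filter_subset _ _)
    have h3 : ∑ l ∈ Finset.range g, (e + 1) ≤ ∑ l ∈ Finset.range g, (W l).card :=
      Finset.sum_le_sum fun l hl => hcon l hl
    rw [Finset.sum_const, Finset.card_range, smul_eq_mul] at h3
    omega
  rw [Finset.mem_range] at hl
  have hla : l * a + a ≤ g * a := by
    have : (l + 1) * a ≤ g * a := Nat.mul_le_mul_right a hl
    rwa [add_mul, one_mul] at this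
  obtain ⟨s, hs, hrs⟩ := exists_rkk (X := X) (m := l * a) (by omega)
  -- counting elements from `s` on
  have hcount : ∀ i, s ≤ i → (X.filter (fun j => s ≤ j ∧ j < i)).card + l * a = rkk X i := by
    intro i hi
    rw [← hrs]
    unfold rkk
    rw [← Finset.card_union_of_disjoint]
    · congr 1
      ext j
      simp only [Finset.mem_union, Finset.mem_filter]
      constructor
      · rintro (h | h)
        · exact ⟨h.1, h.2.2⟩
        · exact ⟨h.1, lt_of_lt_of_le h.2 hi⟩
      · rintro ⟨h1, h2⟩
        rcases lt_or_ge j s with h | h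
        · exact Or.inr ⟨h1, h⟩
        · exact Or.inl ⟨h1, h, h2⟩
    · rw [Finset.disjoint_left]
      intro j hj hj'
      have h1 := (Finset.mem_filter.1 hj).2.1
      have h2 := (Finset.mem_filter.1 hj').2
      exact absurd h2 (not_lt.2 h1)
  refine ⟨s, s.2, ?_, ?_⟩
  · have h1 : (from' (s : ℕ) X).card + l * a = X.card := by
      rw [← hrs]
      unfold rkk from'
      rw [← Finset.card_union_of_disjoint]
      · congr 1
        ext j
        simp only [Finset.mem_union, Finset.mem_filter]
        constructor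
        · rintro (h | h)
          · exact h.1
          · exact h.1
        · intro h1
          rcases lt_or_ge j s with h | h
          · exact Or.inr ⟨h1, h⟩
          · exact Or.inl ⟨h1, h⟩
      · rw [Finset.disjoint_left]
        intro j hj hj'
        have h1 := (Finset.mem_filter.1 hj).2
        have h2 := (Finset.mem_filter.1 hj').2
        exact absurd h2 (not_lt.2 h1)
    omega
  · intro i hi
    unfold firsts at hi ⊢
    rw [Finset.mem_filter] at hi ⊢
    obtain ⟨hi1, hi2⟩ := hi
    unfold from' at hi1 hi2 ⊢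
    rw [Finset.mem_filter] at hi1
    obtain ⟨hiX, hsi⟩ := hi1
    have hsi' : s ≤ i := hsi
    refine ⟨Finset.mem_filter.2 ⟨hXU hiX, hsi⟩, ?_⟩
    have e1 : (X.filter (fun j : Fin n => (s : ℕ) ≤ (j : ℕ))).filter (· < i) =
        X.filter (fun j => s ≤ j ∧ j < i) := by
      rw [Finset.filter_filter]; rfl
    rw [e1] at hi2
    have hri := hcount i hsi'
    have e2 : (U.filter (fun j : Fin n => (s : ℕ) ≤ (j : ℕ))).filter (· < i) ⊆
        X.filter (fun j => s ≤ j ∧ j < i) ∪ W l := by
      intro j hj
      rw [Finset.mem_filter, Finset.mem_filter] at hj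
      obtain ⟨⟨hjU, hsj⟩, hji⟩ := hj
      have hsj' : s ≤ j := hsj
      rw [Finset.mem_union]
      by_cases hjX : j ∈ X
      · exact Or.inl (Finset.mem_filter.2 ⟨hjX, hsj', hji⟩)
      · right
        rw [hW, Finset.mem_filter, Finset.mem_sdiff]
        have hne : s ≠ j := fun h => hjX (h ▸ hs)
        have h1 := rkk_lt hs (lt_of_le_of_ne hsj' hne)
        have h2 := rkk_mono (X := X) hji.le
        exact ⟨⟨hjU, hjX⟩, by omega, by omega⟩
    have h3 := (Finset.card_le_card e2).trans (Finset.card_union_le _ _)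
    omega

end Pool.Agent.L7h65.TS
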